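import Mathlib

set_option autoImplicit false

/-!
# A matroid whose top `h`-number cannot be lowered by exactly one inside its family of bases

The rank `2` matroid on five elements with parallel classes `{0,1}`, `{2,3}`, `{4}` has `h_2 = 4`, and
no subfamily of its bases is the family of bases of a matroid with `h_2 = 3`.
-/

namespace Pool.Agent.Results.MP_35fef3_co.NoUnitDrop

/-- `f_{i-1}(M)`: the number of independent sets of `M` with exactly `i` elements. -/
noncomputable def indepCount {α : Type*} (M : Matroid α) (i : ℕ) : ℕ :=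
  {I : Set α | M.Indep I ∧ I.ncard = i}.ncard

/-- `h_d(M) = ∑_{i=0}^{d} (-1)^{d-i} f_{i-1}(M)`, where `d` is the rank of `M`. -/
noncomputable def topH {α : Type*} (M : Matroid α) : ℤ :=
  ∑ i ∈ Finset.range (M.eRank.toNat + 1), (-1) ^ (M.eRank.toNat - i) * (indepCount M i : ℤ)

open Classical in
/-- the graph of independent pairs of a matroid on `Fin 5` -/
noncomputable def gr (N : Matroid (Fin 5)) (i j : Fin 5) : Bool :=
  decide (i ≠ j ∧ N.Indep {i, j})

lemma gr_iff (N : Matroid (Fin 5)) (i j : Fin 5) :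
    gr N i j = true ↔ (i ≠ j ∧ N.Indep {i, j}) := by
  unfold gr; simp

lemma gr_symm (N : Matroid (Fin 5)) (i j : Fin 5) : gr N i j = gr N j i := by
  rw [Bool.eq_iff_iff, gr_iff, gr_iff, Set.pair_comm]
  constructor <;> rintro ⟨h, h'⟩ <;> exact ⟨h.symm, h'⟩

lemma gr_self (N : Matroid (Fin 5)) (i : Fin 5) : gr N i i = false := by
  rw [Bool.eq_false_iff]
  intro h
  rw [gr_iff] at h
  exact h.1 rfl

/-- number of edges of a graph on `Fin 5` -/
def edg (b : Fin 5 → Fin 5 → Bool) : ℕ := ∑ i, ∑ j, if i < j ∧ b i j = true then 1 else 0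

/-- number of non-isolated vertices of a graph on `Fin 5` -/
def vtx (b : Fin 5 → Fin 5 → Bool) : ℕ := ∑ i, if ∃ j, b i j = true then 1 else 0

lemma count_two (N : Matroid (Fin 5)) : indepCount N 2 = edg (gr N) := by
  classical
  have h : {I : Set (Fin 5) | N.Indep I ∧ I.ncard = 2} =
      (fun q : Fin 5 × Fin 5 => ({q.1, q.2} : Set (Fin 5))) ''
        ((Finset.univ.filter (fun q : Fin 5 × Fin 5 => q.1 < q.2 ∧ gr N q.1 q.2 = true) :
          Finset (Fin 5 × Fin 5)) : Set (Fin 5 × Fin 5)) := by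
    ext S
    simp only [Set.mem_ofPred_eq, Set.mem_image, Finset.coe_filter, Finset.mem_univ, true_and,
      Prod.exists]
    constructor
    · rintro ⟨hS, hc⟩
      obtain ⟨x, y, hxy, rfl⟩ := Set.ncard_eq_two.1 hc
      rcases lt_or_gt_of_ne hxy with h | h
      · exact ⟨x, y, ⟨h, (gr_iff N x y).2 ⟨hxy, hS⟩⟩, rfl⟩
      · refine ⟨y, x, ⟨h, (gr_iff N y x).2 ⟨hxy.symm, ?_⟩⟩, Set.pair_comm y x⟩
        rw [Set.pair_comm]; exact hS
    · rintro ⟨x, y, ⟨h, hg⟩, rfl⟩
      exact ⟨((gr_iff N x y).1 hg).2, Set.ncard_pair h.ne⟩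
  have hinj : Set.InjOn (fun q : Fin 5 × Fin 5 => ({q.1, q.2} : Set (Fin 5)))
      ((Finset.univ.filter (fun q : Fin 5 × Fin 5 => q.1 < q.2 ∧ gr N q.1 q.2 = true) :
          Finset (Fin 5 × Fin 5)) : Set (Fin 5 × Fin 5)) := by
    rintro ⟨a, b⟩ h1 ⟨c, d⟩ h2 h3
    simp only [Finset.coe_filter, Finset.mem_univ, true_and, Set.mem_ofPred_eq] at h1 h2
    simp only at h3
    rcases (Set.pair_eq_pair_iff).1 h3 with ⟨rfl, rfl⟩ | ⟨rfl, rfl⟩
    · rfl
    · exact absurd h1.1 (not_lt.2 h2.1.le)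
  unfold indepCount edg
  rw [h, hinj.ncard_image, Set.ncard_coe_finset, Finset.card_filter,
    Fintype.sum_prod_type]

lemma count_zero (N : Matroid (Fin 5)) : indepCount N 0 = 1 := by
  unfold indepCount
  rw [Set.ncard_eq_one]
  refine ⟨∅, ?_⟩
  ext S
  simp only [Set.mem_ofPred_eq, Set.mem_singleton_iff]
  constructor
  · rintro ⟨_, h⟩
    exact (Set.ncard_eq_zero (Set.toFinite S)).1 h
  · rintro rfl
    exact ⟨N.empty_indep, Set.ncard_empty _⟩

/-- in rank two every independent singleton extends to an independent pair -/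
lemma ext_single (N : Matroid (Fin 5)) (hr : N.eRank = 2) (i : Fin 5) :
    N.Indep {i} ↔ ∃ j, gr N i j = true := by
  constructor
  · intro h
    obtain ⟨B, hB, hiB⟩ := h.exists_isBase_superset
    have hc : B.encard = 2 := by rw [hB.encard_eq_eRank, hr]
    obtain ⟨x, y, hxy, rfl⟩ := Set.encard_eq_two.1 hc
    have hi : i = x ∨ i = y := by simpa using hiB
    rcases hi with rfl | rfl
    · exact ⟨y, (gr_iff N i y).2 ⟨hxy, hB.indep⟩⟩
    · refine ⟨x, (gr_iff N i x).2 ⟨hxy.symm, ?_⟩⟩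
      rw [Set.pair_comm]; exact hB.indep
  · rintro ⟨j, hj⟩
    exact ((gr_iff N i j).1 hj).2.subset (by simp)

lemma count_one (N : Matroid (Fin 5)) (hr : N.eRank = 2) : indepCount N 1 = vtx (gr N) := by
  classical
  have h : {I : Set (Fin 5) | N.Indep I ∧ I.ncard = 1} =
      (fun q : Fin 5 => ({q} : Set (Fin 5))) ''
        ((Finset.univ.filter (fun q : Fin 5 => ∃ j, gr N q j = true) :
          Finset (Fin 5)) : Set (Fin 5)) := by
    ext S
    simp only [Set.mem_ofPred_eq, Set.mem_image, Finset.coe_filter, Finset.mem_univ, true_and]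
    constructor
    · rintro ⟨hS, hc⟩
      obtain ⟨x, rfl⟩ := Set.ncard_eq_one.1 hc
      exact ⟨x, (ext_single N hr x).1 hS, rfl⟩
    · rintro ⟨x, hx, rfl⟩
      exact ⟨(ext_single N hr x).2 hx, Set.ncard_singleton x⟩
  unfold indepCount vtx
  rw [h, Set.ncard_image_of_injective _ Set.singleton_injective, Set.ncard_coe_finset,
    Finset.card_filter]

lemma topH_eq (N : Matroid (Fin 5)) (hr : N.eRank = 2) :
    topH N = (edg (gr N) : ℤ) - vtx (gr N) + 1 := by
  unfold topH
  rw [hr]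
  simp only [ENat.toNat_ofNat, Finset.sum_range_succ, Finset.range_zero, Finset.sum_empty,
    count_two, count_zero, count_one N hr]
  push_cast
  ring

lemma aug (N : Matroid (Fin 5)) (hr : N.eRank = 2) (k i j : Fin 5) (hij : gr N i j = true)
    (hk : ∃ m, gr N k m = true) : k = i ∨ k = j ∨ gr N k i = true ∨ gr N k j = true := by
  by_cases hki : k = i
  · exact Or.inl hki
  by_cases hkj : k = j
  · exact Or.inr (Or.inl hkj)
  rw [← ext_single N hr] at hk
  rw [gr_iff] at hij
  have hlt : ({k} : Set (Fin 5)).encard < ({i, j} : Set (Fin 5)).encard := by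
    rw [Set.encard_singleton, Set.encard_pair hij.1]; norm_num
  obtain ⟨e, he, hI⟩ := hk.augment hij.2 hlt
  have he' : (e = i ∨ e = j) ∧ e ≠ k := by simpa using he
  rcases he'.1 with rfl | rfl
  · refine Or.inr (Or.inr (Or.inl ((gr_iff N k e).2 ⟨hki, ?_⟩)))
    rw [Set.pair_comm]; exact hI
  · refine Or.inr (Or.inr (Or.inr ((gr_iff N k e).2 ⟨hkj, ?_⟩)))
    rw [Set.pair_comm]; exact hI

/-- graph on `Fin 5` from its eight possible edges -/
def mk (p02 p03 p04 p12 p13 p14 p24 p34 : Bool) (i j : Fin 5) : Bool :=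
  match i.val, j.val with
  | 0, 2 => p02
  | 2, 0 => p02
  | 0, 3 => p03
  | 3, 0 => p03
  | 0, 4 => p04
  | 4, 0 => p04
  | 1, 2 => p12
  | 2, 1 => p12
  | 1, 3 => p13
  | 3, 1 => p13
  | 1, 4 => p14
  | 4, 1 => p14
  | 2, 4 => p24
  | 4, 2 => p24
  | 3, 4 => p34
  | 4, 3 => p34
  | _, _ => false

lemma decision : ∀ p02 p03 p04 p12 p13 p14 p24 p34 : Bool,
    (∀ k i j : Fin 5, mk p02 p03 p04 p12 p13 p14 p24 p34 i j = true →
      (∃ m, mk p02 p03 p04 p12 p13 p14 p24 p34 k m = true) →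
      k = i ∨ k = j ∨ mk p02 p03 p04 p12 p13 p14 p24 p34 k i = true ∨
        mk p02 p03 p04 p12 p13 p14 p24 p34 k j = true) →
    edg (mk p02 p03 p04 p12 p13 p14 p24 p34) ≠ vtx (mk p02 p03 p04 p12 p13 p14 p24 p34) + 2 := by
  decide +kernel

lemma gr_eq_mk (N : Matroid (Fin 5)) (h01 : gr N 0 1 = false) (h23 : gr N 2 3 = false) :
    gr N = mk (gr N 0 2) (gr N 0 3) (gr N 0 4) (gr N 1 2) (gr N 1 3) (gr N 1 4) (gr N 2 4)
      (gr N 3 4) := by
  funext i j
  fin_cases i <;> fin_cases j <;>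
    first
    | exact gr_self N _
    | exact h01
    | exact h23
    | exact (gr_symm N _ _).trans h01
    | exact (gr_symm N _ _).trans h23
    | rfl
    | exact gr_symm N _ _

/-- independence in the example: at most one element from each of `{0,1}`, `{2,3}`, `{4}`, and at most
two elements -/
def indF (I : Finset (Fin 5)) : Prop := I.card ≤ 2 ∧ ¬ ({0, 1} ⊆ I) ∧ ¬ ({2, 3} ⊆ I)

instance (I : Finset (Fin 5)) : Decidable (indF I) := by unfold indF; infer_instance

lemma indF_sub : ∀ ⦃I J : Finset (Fin 5)⦄, indF J → I ⊆ J → indF I := by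
  rintro I J ⟨h1, h2, h3⟩ h
  exact ⟨(Finset.card_le_card h).trans h1, fun h' => h2 (h'.trans h), fun h' => h3 (h'.trans h)⟩

lemma indF_aug : ∀ ⦃I J : Finset (Fin 5)⦄, indF I → indF J → I.card < J.card →
    ∃ e ∈ J, e ∉ I ∧ indF (insert e I) := by
  intro I J hI hJ hlt
  have hJ2 : J.card ≤ 2 := hJ.1
  have hI1 : I.card = 0 ∨ I.card = 1 := by omega
  rcases hI1 with h0 | h1
  · rw [Finset.card_eq_zero] at h0
    subst h0
    obtain ⟨e, he⟩ := Finset.card_pos.1 (by simpa using hlt : 0 < J.card)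
    refine ⟨e, he, by simp, ?_⟩
    have : ∀ e : Fin 5, indF (insert e ∅) := by decide
    exact this e
  · obtain ⟨x, rfl⟩ := Finset.card_eq_one.1 h1
    have hJc : J.card = 2 := by simp at hlt; omega
    obtain ⟨y, z, hyz, rfl⟩ := Finset.card_eq_two.1 hJc
    have : ∀ x y z : Fin 5, y ≠ z → indF {y, z} →
        ∃ e ∈ ({y, z} : Finset (Fin 5)), e ∉ ({x} : Finset (Fin 5)) ∧ indF (insert e {x}) := by
      decide +kernel
    exact this x y z hyz hJ

/-- the example -/
def Mex : Matroid (Fin 5) :=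
  (IndepMatroid.ofFinset (Set.univ : Set (Fin 5)) indF (by decide)
    indF_sub indF_aug (fun _ _ => Set.subset_univ _)).matroid

lemma Mex_indep (I : Finset (Fin 5)) : Mex.Indep (I : Set (Fin 5)) ↔ indF I := by
  unfold Mex
  simp

lemma Mex_pair (i j : Fin 5) : Mex.Indep {i, j} ↔ indF {i, j} := by
  rw [← Mex_indep]; simp

lemma Mex_rank : Mex.eRank = 2 := by
  have hb : Mex.IsBase ({0, 2} : Set (Fin 5)) := by
    rw [Matroid.isBase_iff_maximal_indep]
    refine ⟨(Mex_pair 0 2).2 (by decide), ?_⟩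
    intro S hS hBS
    classical
    obtain ⟨T, rfl⟩ : ∃ T : Finset (Fin 5), (T : Set (Fin 5)) = S := ⟨S.toFinite.toFinset, Set.Finite.coe_toFinset _⟩
    have h1 := (Mex_indep T).1 hS
    have h2 : ({0, 2} : Finset (Fin 5)) ⊆ T := by
      rw [← Finset.coe_subset]; simpa using hBS
    have h3 := Finset.eq_of_subset_of_card_le h2 (by simpa using h1.1)
    rw [← h3]; simp
  rw [← hb.encard_eq_eRank, Set.encard_pair (by decide)]

lemma Mex_gr (i j : Fin 5) : gr Mex i j = decide (i ≠ j ∧ indF {i, j}) := by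
  rw [Bool.eq_iff_iff, gr_iff, Mex_pair]; simp

/-- **Theorem.** There is a matroid `M` of rank `2` (on five elements) with `h_2(M) ≥ 1` such that
no matroid `N` on the same ground set all of whose bases are bases of `M` has
`h(N) = h_2(M) - 1`; here `h` is the top entry of the `h`-vector of the independence complex. -/
theorem result : ∃ M : Matroid (Fin 5), M.E = Set.univ ∧ M.eRank = 2 ∧ 1 ≤ topH M ∧
    ∀ N : Matroid (Fin 5), N.E = Set.univ → (∀ B : Set (Fin 5), N.IsBase B → M.IsBase B) →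
      topH N ≠ topH M - 1 := by
  have hM : topH Mex = 4 := by
    have hfun : gr Mex = fun i j => decide (i ≠ j ∧ indF {i, j}) := by
      funext i j; exact Mex_gr i j
    rw [topH_eq Mex Mex_rank, hfun]
    decide +kernel
  refine ⟨Mex, rfl, Mex_rank, by rw [hM]; norm_num, ?_⟩
  intro N _ hN
  have hr : N.eRank = 2 := by
    obtain ⟨B, hB⟩ := N.exists_isBase
    rw [← hB.encard_eq_eRank, (hN B hB).encard_eq_eRank, Mex_rank]
  -- independent pairs of `N` are bases of `N`, hence of `M`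
  have hpair : ∀ i j, gr N i j = true → indF {i, j} := by
    intro i j hij
    rw [gr_iff] at hij
    obtain ⟨B, hB, hsub⟩ := hij.2.exists_isBase_superset
    exact (Mex_pair i j).1 ((hN B hB).indep.subset hsub)
  have h01 : gr N 0 1 = false := by
    rw [Bool.eq_false_iff]; intro h; exact absurd (hpair 0 1 h) (by decide)
  have h23 : gr N 2 3 = false := by
    rw [Bool.eq_false_iff]; intro h; exact absurd (hpair 2 3 h) (by decide)
  have hmk := gr_eq_mk N h01 h23
  have hdec := decision (gr N 0 2) (gr N 0 3) (gr N 0 4) (gr N 1 2) (gr N 1 3) (gr N 1 4) (gr N 2 4)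
      (gr N 3 4)
  rw [← hmk] at hdec
  have := hdec (fun k i j hij hk => aug N hr k i j hij hk)
  rw [hM, topH_eq N hr]
  intro hc
  apply this
  have : (edg (gr N) : ℤ) = vtx (gr N) + 2 := by linarith
  exact_mod_cast this

end Pool.Agent.Results.MP_35fef3_co.NoUnitDrop
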